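import Pool.Agent.Y6.S.Stm
import Pool.Agent.Y6.S.Conv
import Pool.Agent.Y710.EP.PERT5

/-!
Job SK-RB of the project SK: the right side `rr D c z = bl c z z - lin D z` is bounded in the
group `p` by `N₁ * TS p`; the squares of `TS p` are summable.
-/

open Set Filter Topology

set_option autoImplicit false
set_option linter.all false

namespace Pool.Agent.Y104.SK

open Pool.Agent.Y5.D Pool.Agent.Y5.E
open Pool.Agent.Y6.N (lin)
open Pool.Agent.Y5.S2 (Sq6 Dis2)
open Pool.Agent.Y710.EP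
open Pool.Agent.Y8.EP (Sq5)
open Pool.Agent.Y6.S (Rp rr TS Zp S_S65 S_KB S_RAP S_RB)

variable {J : Type} {g : J → ℕ} {κ μ lam Λ M : ℝ} {L C ℓ : ℕ → ℝ} {B : ℕ → ℕ → ℝ}
  {c : Ix J → Ix J → Ix J → ℝ}

/-- the weights are summable after any power -/
theorem rp_summ (hK : Ker g Λ M L C B c) (hs : Sq5 κ μ lam Λ M L C ℓ B) {z : Ix J → ℝ}
    (hz : Rp g L z) (k : ℕ) : Summable (fun a => L (gr g a) ^ k * |z a|) := by
  obtain ⟨K, hKz⟩ := hz (k + 3)
  have hLp : ∀ n, 0 < L n := fun n => lt_of_lt_of_le one_pos (L_one hs n)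
  refine Summable.of_nonneg_of_le (fun a => ?_) (fun a => ?_) ((wsum hK hs).mul_left K)
  · have := hLp (gr g a)
    positivity
  · have h1 := hLp (gr g a)
    have h2 := hKz a
    have e : L (gr g a) * (L (gr g a))⁻¹ ^ 4 = (L (gr g a) ^ 3)⁻¹ := by
      field_simp
    rw [e, ← div_eq_mul_inv, le_div_iff₀ (by positivity)]
    calc L (gr g a) ^ k * |z a| * L (gr g a) ^ 3 = L (gr g a) ^ (k + 3) * |z a| := by ring
      _ ≤ K := h2

theorem rp_nice (hK : Ker g Λ M L C B c) (hs : Sq5 κ μ lam Λ M L C ℓ B) {z : Ix J → ℝ}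
    (hz : Rp g L z) : Nice g L z := by
  have h := rp_summ hK hs hz 1
  simp only [pow_one] at h
  exact h

theorem nm_le_l1 {y : Ix J → ℝ} (h1 : Summable (fun a => |y a|)) : nm y ≤ ∑' a, |y a| := by
  have h0 : 0 ≤ ∑' a, |y a| := tsum_nonneg fun a => abs_nonneg _
  unfold nm
  rw [show (∑' a, |y a|) = √((∑' a, |y a|) ^ 2) from (Real.sqrt_sq h0).symm]
  refine Real.sqrt_le_sqrt ?_
  have hle : ∀ a, y a ^ 2 ≤ (∑' a, |y a|) * |y a| := fun a => by
    rw [← sq_abs, _root_.sq]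
    exact mul_le_mul_of_nonneg_right (h1.le_tsum a fun _ _ => abs_nonneg _) (abs_nonneg _)
  have h2 : Summable (fun a => y a ^ 2) :=
    Summable.of_nonneg_of_le (fun a => sq_nonneg _) hle (h1.mul_left _)
  calc ∑' a, y a ^ 2 ≤ ∑' a, (∑' a, |y a|) * |y a| := h2.tsum_le_tsum hle (h1.mul_left _)
    _ = (∑' a, |y a|) ^ 2 := by rw [tsum_mul_left, _root_.sq]

/-- rapid decrease of the norms of the parts from the group `n` on -/
theorem rp_nm (hK : Ker g Λ M L C B c) (hs : Sq5 κ μ lam Λ M L C ℓ B) {z : Ix J → ℝ}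
    (hz : Rp g L z) (k : ℕ) : ∃ S : ℝ, 0 ≤ S ∧ ∀ (n : ℕ) (y : Ix J → ℝ), (∀ a, |y a| ≤ |z a|) →
      (∀ a, gr g a < n → y a = 0) → L n ^ k * nm y ≤ S := by
  have hsum := rp_summ hK hs hz k
  refine ⟨∑' a, L (gr g a) ^ k * |z a|, tsum_nonneg fun a => ?_, fun n y h1 h2 => ?_⟩
  · have := L_nn hs (gr g a)
    positivity
  · have hy1 : Summable (fun a => |y a|) :=
      Summable.of_nonneg_of_le (fun a => abs_nonneg _) h1 ((rp_nice hK hs hz).sum1 hs)
    have h3 := nm_le_l1 hy1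
    have hLn := L_nn hs n
    have h4 : ∀ a, L n ^ k * |y a| ≤ L (gr g a) ^ k * |z a| := by
      intro a
      by_cases ha : gr g a < n
      · rw [h2 a ha, abs_zero, mul_zero]
        have := L_nn hs (gr g a)
        positivity
      · have h5 : L n ^ k ≤ L (gr g a) ^ k := pow_le_pow_left₀ hLn (L_mono hs (by omega)) k
        exact mul_le_mul h5 (h1 a) (abs_nonneg _) (pow_nonneg (L_nn hs _) k)
    calc L n ^ k * nm y ≤ L n ^ k * ∑' a, |y a| := by gcongr
      _ = ∑' a, L n ^ k * |y a| := tsum_mul_left.symm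
      _ ≤ _ := (hy1.mul_left _).tsum_le_tsum h4 hsum

theorem rp_ee (hK : Ker g Λ M L C B c) (hs : Sq5 κ μ lam Λ M L C ℓ B) {z : Ix J → ℝ}
    (hz : Rp g L z) (k : ℕ) : ∃ S : ℝ, 0 ≤ S ∧ (∀ n, L n ^ k * ee g z n ≤ S) ∧
      ∀ n, L n ^ k * nm (Pu g n z) ≤ S := by
  obtain ⟨S, hS0, hS⟩ := rp_nm hK hs hz k
  refine ⟨S + S, by linarith, fun n => ?_, fun n => ?_⟩
  · unfold ee
    rw [mul_add, ← nm_pm (g := g)]
    refine add_le_add (hS n _ (fun a => ?_) (fun a ha => ?_)) (hS n _ (fun a => ?_) (fun a ha => ?_))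
    · exact (Pg_le n _ a).trans (Pm_le z a)
    · exact if_neg (by omega)
    · exact (Pg_le n _ a).trans (Po_le z a)
    · exact if_neg (by omega)
  · have := hS n (Pu g n z) (Pu_le n z) (fun a ha => if_neg (by omega))
    linarith

theorem Zp_nn {b : ℕ → ℝ} (hb : ∀ p, 0 ≤ b p) (m : ℕ) : 0 ≤ Zp b m := by
  unfold Zp
  have h1 := hb (m - 1)
  have h2 := hb (m - 2)
  split_ifs <;> linarith

theorem Zp_ge {b : ℕ → ℝ} (hb : ∀ p, 0 ≤ b p) (m : ℕ) : (if m = 0 then 0 else b (m - 1)) ≤ Zp b m := by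
  unfold Zp
  have h2 := hb (m - 2)
  have h3 : 0 ≤ (if m ≤ 1 then 0 else b (m - 2)) := by
    split_ifs
    exacts [le_rfl, h2]
  linarith

theorem Zp_le (hs : Sq5 κ μ lam Λ M L C ℓ B) {b : ℕ → ℝ} {S : ℝ} (hS : 0 ≤ S) (k : ℕ)
    (hb : ∀ n, L n ^ k * b n ≤ S) (m : ℕ) : L m ^ k * Zp b m ≤ (lam ^ k + lam ^ (2 * k)) * S := by
  have hl : 0 ≤ lam := zero_le_one.trans (lam_one hs)
  unfold Zp
  rw [mul_add, add_mul]
  refine add_le_add ?_ ?_
  · split_ifs with h
    · rw [mul_zero]; positivity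
    · obtain ⟨j, rfl⟩ := Nat.exists_eq_succ_of_ne_zero h
      rw [Nat.succ_eq_add_one, Nat.add_sub_cancel, hs.L_succ, mul_pow, mul_assoc]
      exact mul_le_mul_of_nonneg_left (hb j) (by positivity)
  · split_ifs with h
    · rw [mul_zero]; positivity
    · obtain ⟨j, rfl⟩ : ∃ j, m = j + 2 := ⟨m - 2, by omega⟩
      rw [Nat.add_sub_cancel, hs.L_succ, hs.L_succ]
      have e : (lam * (lam * L j)) ^ k * b j = lam ^ (2 * k) * (L j ^ k * b j) := by
        rw [mul_pow, mul_pow, mul_comm 2 k, pow_mul]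
        ring
      rw [e]
      exact mul_le_mul_of_nonneg_left (hb j) (by positivity)

theorem sA_le (hs : Sq5 κ μ lam Λ M L C ℓ B) {b : ℕ → ℝ} {S : ℝ} (hS : 0 ≤ S)
    (hb0 : ∀ n, 0 ≤ b n) (hb : ∀ n, L n * b n ≤ S) (m : ℕ) : sA (Λ / lam) b m ≤ 2 * S := by
  unfold sA
  have h1 : ∀ p, b p ≤ S * (1 / 2) ^ p := by
    intro p
    have h2 := L_geo hs p
    have h3 := hb p
    have h4 : (2 : ℝ) ^ p * b p ≤ S := (mul_le_mul_of_nonneg_right h2 (hb0 p)).trans h3
    rw [one_div, inv_pow, ← div_eq_mul_inv, le_div_iff₀ (by positivity)]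
    linarith
  calc ∑ p ∈ Finset.range m, (Λ / lam) ^ (m - 1 - p) * b p
      ≤ ∑ p ∈ Finset.range m, S * (1 / 2) ^ p := by
        refine Finset.sum_le_sum fun p _ => ?_
        refine le_trans ?_ (h1 p)
        exact mul_le_of_le_one_left (hb0 p) (pow_le_one₀ (ρ_nn hs) (ρ_le hs))
    _ = S * ∑ p ∈ Finset.range m, (1 / 2 : ℝ) ^ p := by rw [Finset.mul_sum]
    _ ≤ S * 2 := by
        refine mul_le_mul_of_nonneg_left ?_ hS
        have := summable_geometric_two.sum_le_tsum (Finset.range m) (fun p _ => by positivity)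
        rwa [tsum_geometric_two] at this
    _ = 2 * S := by ring

theorem TS_nn (hs : Sq5 κ μ lam Λ M L C ℓ B) (z : Ix J → ℝ) (p : ℕ) :
    0 ≤ TS κ (Λ / lam) L g z p := by
  unfold TS
  have h1 := L_nn hs p
  have h2 := pow_nonneg hs.κ0.le p
  have h3 := sA_nn hs (fun p => ee_nn (g := g) z p) p
  have h4 := nm_nn (Pu g p z)
  have h5 := Zp_nn (fun p => ee_nn (g := g) z p) p
  positivity

/-- `TS` is rapidly decreasing -/
theorem TS_dec (hK : Ker g Λ M L C B c) (hs : Sq5 κ μ lam Λ M L C ℓ B) {z : Ix J → ℝ}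
    (hz : Rp g L z) (k : ℕ) : ∃ S : ℝ, 0 ≤ S ∧ ∀ p, L p ^ k * TS κ (Λ / lam) L g z p ≤ S := by
  obtain ⟨S1, hS1, h1, h1'⟩ := rp_ee hK hs hz 1
  obtain ⟨S2, hS2, h2, h2'⟩ := rp_ee hK hs hz (k + 1)
  have hl : 0 ≤ lam := zero_le_one.trans (lam_one hs)
  refine ⟨(1 + 2 * S1 + S1) * (S2 + (lam ^ (k + 1) + lam ^ (2 * (k + 1))) * S2), by positivity,
    fun p => ?_⟩
  have hL := L_nn hs p
  have e : L p ^ k * TS κ (Λ / lam) L g z p =
      (κ ^ p + sA (Λ / lam) (ee g z) p + nm (Pu g p z)) *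
      (L p ^ (k + 1) * nm (Pu g p z) + L p ^ (k + 1) * Zp (ee g z) p) := by
    unfold TS
    ring
  rw [e]
  have a1 : κ ^ p ≤ 1 := pow_le_one₀ hs.κ0.le hs.κ1
  have a2 : sA (Λ / lam) (ee g z) p ≤ 2 * S1 :=
    sA_le hs hS1 (fun n => ee_nn _ _) (fun n => by simpa using h1 n) p
  have a3 : nm (Pu g p z) ≤ S1 := by
    have h := h1' p
    rw [pow_one] at h
    exact (le_mul_of_one_le_left (nm_nn _) (L_one hs p)).trans h
  have b1 := h2' p
  have b2 := Zp_le hs hS2 (k + 1) h2 p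
  have c1 := pow_nonneg hs.κ0.le p
  have c2 := sA_nn hs (fun p => ee_nn (g := g) z p) p
  have c3 := nm_nn (Pu g p z)
  have c4 := Zp_nn (fun p => ee_nn (g := g) z p) p
  exact mul_le_mul (by linarith) (by linarith) (by positivity) (by positivity)

theorem TS_summ (hK : Ker g Λ M L C B c) (hs : Sq5 κ μ lam Λ M L C ℓ B) {z : Ix J → ℝ}
    (hz : Rp g L z) : Summable (fun p => TS κ (Λ / lam) L g z p ^ 2) := by
  obtain ⟨S, hS, h⟩ := TS_dec hK hs hz 1
  refine Summable.of_nonneg_of_le (fun p => sq_nonneg _) (fun p => ?_)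
    ((summable_geometric_of_lt_one (r := 1 / 4) (by norm_num) (by norm_num)).mul_left (S ^ 2))
  have h1 := h p
  have h2 := L_geo hs p
  have h3 := TS_nn (g := g) hs z p
  have h4 : (2 : ℝ) ^ p * TS κ (Λ / lam) L g z p ≤ S := by
    rw [pow_one] at h1
    exact (mul_le_mul_of_nonneg_right h2 h3).trans h1
  have h5 : TS κ (Λ / lam) L g z p ≤ S * (1 / 2) ^ p := by
    rw [one_div, inv_pow, ← div_eq_mul_inv, le_div_iff₀ (by positivity)]
    linarith
  calc TS κ (Λ / lam) L g z p ^ 2 ≤ (S * (1 / 2) ^ p) ^ 2 := pow_le_pow_left₀ h3 h5 2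
    _ = S ^ 2 * (1 / 4) ^ p := by
      rw [mul_pow, ← pow_mul, mul_comm p 2, pow_mul]
      norm_num

/-- the modes of one group -/
theorem gr_fin (hK : Ker g Λ M L C B c) (n : ℕ) : {a : Ix J | gr g a = n}.Finite := by
  refine (((Set.finite_singleton n).image Sum.inl).union ((hK.fin n).image Sum.inr)).subset ?_
  rintro (m | j) h
  · exact Or.inl ⟨m, h, rfl⟩
  · exact Or.inr ⟨j, h, rfl⟩

theorem ing_summ (hK : Ker g Λ M L C B c) {n : ℕ} {f : Ix J → ℝ}
    (h : ∀ a, gr g a ≠ n → f a = 0) : Summable f := by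
  refine summable_of_finite_support ((gr_fin hK n).subset fun a ha => ?_)
  by_contra h'
  exact ha (h a h')

/-- the linear term, tested with a vector of one group -/
theorem lin_test (hK : Ker g Λ M L C B c) {a₀ D₁ : ℝ} {ℓ₀ : ℕ → ℝ} {D : Ix J → Ix J → ℝ}
    (hs : Sq5 κ μ lam Λ M L C ℓ B)
    (hD : Dis2 g a₀ D₁ κ L ℓ₀ D) {α z : Ix J → ℝ} {n : ℕ} (hα : ∀ i, gr g i ≠ n → α i = 0) :
    |∑' i, α i * lin D z i| ≤ 10 ^ 6 * (κ ^ n * L n) * nm α * nm (Pg g n z) := by
  have hβ : ∀ i, gr g i ≠ n → Pg g n z i = 0 := fun i hi => if_neg hi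
  have e : ∀ i, α i * lin D z i = ∑' b, D i b * α i * Pg g n z b := by
    intro i
    unfold lin
    rw [← tsum_mul_left]
    refine tsum_congr fun b => ?_
    by_cases hi : gr g i = n
    · by_cases hb : gr g b = n
      · unfold Pg
        rw [if_pos hb]
        ring
      · have : D i b = 0 := by
          by_contra h
          exact hb ((hD.blk i b h).symm.trans hi)
        rw [this]
        ring
    · rw [hα i hi]
      ring
  have hs1 : Summable (fun p : Ix J × Ix J => D p.1 p.2 * α p.1 * Pg g n z p.2) := by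
    refine summable_of_finite_support (((gr_fin hK n).prod (gr_fin hK n)).subset ?_)
    rintro ⟨i, b⟩ h
    refine ⟨?_, ?_⟩
    · by_contra h'
      exact h (by show D i b * α i * Pg g n z b = 0; rw [hα i h']; ring)
    · by_contra h'
      exact h (by show D i b * α i * Pg g n z b = 0; rw [hβ b h']; ring)
  have e2 : ∑' i, α i * lin D z i = ∑' p : Ix J × Ix J, D p.1 p.2 * α p.1 * Pg g n z p.2 := by
    rw [hs1.tsum_prod]
    exact tsum_congr e
  rw [e2]
  refine (hD.up n α (Pg g n z) hα hβ).trans ?_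
  have h1 := pow_nonneg hs.κ0.le n
  have h2 := L_nn hs n
  have h3 := nm_nn α
  have h4 := nm_nn (Pg g n z)
  have h5 := hD.D1
  show D₁ * (κ ^ n * L n) * nm α * nm (Pg g n z) ≤ _
  gcongr

theorem rb (hS65 : S_S65) (hKB : S_KB) : S_RB := by
  intro J g κ μ lam Λ M a D₁ L C ℓ B D c hK hs6 hD
  obtain ⟨ℓ', hs⟩ := hS65 _ _ _ _ _ _ _ _ _ hs6
  obtain ⟨N₀, hN₀, hKB⟩ := hKB J g κ μ lam Λ M L C ℓ' B c hK hs
  refine ⟨2 * N₀ + 10 ^ 6, by linarith, fun z hz => ⟨TS_summ hK hs hz, fun p => ?_⟩⟩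
  have hz1 := rp_nice hK hs hz
  set α := Pg g p (rr D c z) with hα
  have hα0 : ∀ i, gr g i ≠ p → α i = 0 := fun i hi => if_neg hi
  have hαN : Nice g L α := ing_summ hK (n := p) fun i hi => by rw [hα0 i hi]; simp
  have e1 : nm α ^ 2 = tl c α z z - ∑' i, α i * lin D z i := by
    rw [nm_sq, ← (tl_bl hK hs hαN hz1 hz1).2, ← (tl_bl hK hs hαN hz1 hz1).1.tsum_sub
      (ing_summ hK (n := p) fun i hi => by rw [hα0 i hi]; simp)]
    refine tsum_congr fun i => ?_
    by_cases hi : gr g i = p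
    · have : α i = rr D c z i := if_pos hi
      rw [show α i * bl c z z i - α i * lin D z i = α i * rr D c z i by unfold rr; ring, ← this]
      ring
    · rw [hα0 i hi]
      ring
  have h1 := hKB p α z z (ee g z) (ee g z) hαN hz1 hz1 (Or.inl hα0) (grp_le hs hz1) (grp_le hs hz1)
  have h2 := lin_test hK hs hD (z := z) hα0
  have hL := L_nn hs p
  have hκ := pow_nonneg hs.κ0.le p
  have hA := sA_nn hs (fun p => ee_nn (g := g) z p) p
  have hY := nm_nn (Pu g p z)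
  have hZ := Zp_nn (fun p => ee_nn (g := g) z p) p
  have hZ' := Zp_ge (fun p => ee_nn (g := g) z p) p
  have hα1 := nm_nn α
  have h3 : nm (Pg g p z) ≤ nm (Pu g p z) := by
    refine nm_mono hs (hz1.pu hs p) fun a => ?_
    unfold Pg Pu
    by_cases ha : gr g a = p
    · rw [if_pos ha, if_pos ha.ge]
    · rw [if_neg ha, abs_zero]; exact abs_nonneg _
  have h4 : |tl c α z z| ≤ 2 * N₀ * nm α * TS κ (Λ / lam) L g z p := by
    refine h1.trans ?_
    unfold TS
    have hN : 0 ≤ N₀ := by linarith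
    have h5 : (sA (Λ / lam) (ee g z) p + nm (Pu g p z)) *
        (nm (Pu g p z) + if p = 0 then 0 else ee g z (p - 1)) ≤
        (κ ^ p + sA (Λ / lam) (ee g z) p + nm (Pu g p z)) * (nm (Pu g p z) + Zp (ee g z) p) := by
      refine mul_le_mul (by linarith) (by linarith) ?_ (by positivity)
      split_ifs
      · linarith
      · have := ee_nn (g := g) z (p - 1)
        positivity
    calc N₀ * nm α * (L p * ((sA (Λ / lam) (ee g z) p + nm (Pu g p z)) *
          (nm (Pu g p z) + if p = 0 then 0 else ee g z (p - 1))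
          + (sA (Λ / lam) (ee g z) p + nm (Pu g p z)) *
          (nm (Pu g p z) + if p = 0 then 0 else ee g z (p - 1))))
        ≤ N₀ * nm α * (L p * ((κ ^ p + sA (Λ / lam) (ee g z) p + nm (Pu g p z)) *
          (nm (Pu g p z) + Zp (ee g z) p) + (κ ^ p + sA (Λ / lam) (ee g z) p + nm (Pu g p z)) *
          (nm (Pu g p z) + Zp (ee g z) p))) := by gcongr
      _ = _ := by ring
  have h6 : |∑' i, α i * lin D z i| ≤ 10 ^ 6 * nm α * TS κ (Λ / lam) L g z p := by
    refine h2.trans ?_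
    unfold TS
    calc 10 ^ 6 * (κ ^ p * L p) * nm α * nm (Pg g p z)
        ≤ 10 ^ 6 * (κ ^ p * L p) * nm α * nm (Pu g p z) := by gcongr
      _ = 10 ^ 6 * nm α * (L p * κ ^ p * nm (Pu g p z)) := by ring
      _ ≤ 10 ^ 6 * nm α * (L p * (κ ^ p + sA (Λ / lam) (ee g z) p + nm (Pu g p z)) *
          (nm (Pu g p z) + Zp (ee g z) p)) := by
        gcongr
        · linarith
        · linarith
  have h7 : nm α * nm α ≤ nm α * ((2 * N₀ + 10 ^ 6) * TS κ (Λ / lam) L g z p) := by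
    have h8 := le_abs_self (tl c α z z)
    have h9 := neg_abs_le (∑' i, α i * lin D z i)
    rw [← _root_.sq, e1]
    linarith
  rcases hα1.eq_or_lt with h0 | h0
  · rw [← h0]
    have := TS_nn (g := g) hs z p
    positivity
  · exact le_of_mul_le_mul_left h7 h0

theorem t_RB : S_S65 → S_KB → S_RAP → S_RB := fun h1 h2 _ => rb h1 h2

end Pool.Agent.Y104.SK
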